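import Mathlib
import Pool.Agent.H26R2.Bass.Main

/-!
# The Bass trace conjecture for admissible groups, over all commutative domains
-/

set_option autoImplicit false

namespace Pool.Agent.Results.MP_7903c7_al.AdmissibleGroups

open Pool.Agent.H26R2.Bass

universe u v

/-- Let `R` be a commutative domain of any characteristic. The Bass trace conjecture holds for
`R` and `G` if `G` is admissible, and more generally if all finitely generated subgroups of `G` are
admissible. Here `G` is admissible if it has a normal subgroup `N` with a finite series
`1 = S_0 ≤ … ≤ S_k = N` of normal subgroups of `G` whose factors satisfy `GoodFactor` (for example
periodic factors, factors with finite conjugacy classes in the quotient, factors with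
`PChainFin p` for a prime `p` that is not a unit of `R`, and in characteristic zero abelian factors
of finite rank and factors with `ChainFin`), such that every element of a finitely generated
subgroup `H` of `G` no positive power of which lies in `N` has a `Good` image in some quotient of
`H`. -/
theorem result (R : Type u) [CommRing R] [IsDomain R] (G : Type v) [Group G]
    (hG : Admissible R G ∨ ∀ H : Subgroup G, H.FG → Admissible R H) : BassFor R G :=
  fun _ A hA g hg => bass_main hG A hA g hg

end Pool.Agent.Results.MP_7903c7_al.AdmissibleGroups
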